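import Pool.Agent.H.MP_e16c79_al.AL.Trace

/-!
# MP_e16c79_al, rings of degree three: the ideals generated by traces of powers
-/

set_option autoImplicit false

namespace Pool.Agent.H.MP_e16c79_al.AL

open Finset

theorem dvd_N {n d : ℕ} (h1 : 1 ≤ d) (h2 : d ≤ n) : d ∣ 2 * n.factorial :=
  Dvd.dvd.mul_left (Nat.dvd_factorial h1 h2) 2

theorem six_dvd {n : ℕ} (hn : 3 ≤ n) : 6 ∣ 2 * n.factorial := by
  have h : (3 : ℕ).factorial ∣ n.factorial := Nat.factorial_dvd_factorial hn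
  exact Dvd.dvd.mul_left (by simpa [Nat.factorial] using h) 2

theorem pw_zero {J : Type*} [NonUnitalNonAssocCommRing J] {n : ℕ} (hnil : ∀ a : J, pw a (n - 1) = 0)
    (a : J) {k : ℕ} (hk : n - 1 ≤ k) : pw a k = 0 := by
  induction k with
  | zero =>
    have h : n - 1 = 0 := by omega
    have := hnil a
    rw [h] at this
    exact this
  | succ k ih =>
    rcases Nat.lt_or_ge k (n - 1) with h | h
    · have h' : n - 1 = k + 1 := by omega
      rw [← h']
      exact hnil a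
    · show a * pw a k = 0
      rw [ih h, mul_zero]

namespace Hom3

variable {J F B : Type*} [NonUnitalNonAssocCommRing J] [CommRing F]
    [NonUnitalNonAssocCommRing B] [Module F B] (H : Hom3 J F B)

/-- traces of powers with exponent larger than `j` -/
def S (j : ℕ) : Set F := {s | ∃ (y : J) (l : ℕ), j ≤ l ∧ s = H.t (pw y l)}

/-- the saturated ideals generated by them -/
def A (n j : ℕ) : Ideal F := sat (2 * n.factorial) (Ideal.span (H.S j))

theorem t_pw_mem (n : ℕ) {j l : ℕ} (h : j ≤ l) (y : J) : H.t (pw y l) ∈ H.A n j :=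
  le_sat _ _ (Ideal.subset_span ⟨y, l, h, rfl⟩)

theorem bot_le_A (n j : ℕ) : (sat (2 * n.factorial) (⊥ : Submodule F F)) ≤ H.A n j :=
  sat_mono _ bot_le

theorem t_mul_mem [IsCommJordan J] {n : ℕ} (hn : 3 ≤ n) (hnil : ∀ a : J, pw a (n - 1) = 0) (x h : J)
    (j : ℕ) : H.t (pw x j * h) ∈ H.A n (j + 1) := by
  rcases Nat.lt_or_ge j (n - 1) with hj | hj
  · have h1 : H.t (cn x h (j + 1) 1) ∈ H.A n (j + 1) := by
      have tf : ∀ d : ℕ, 1 ≤ d → d ≤ j + 1 + 1 → ∀ r : F ⧸ H.A n (j + 1), (d : ℤ) • r = 0 →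
          r = 0 := by
        intro d hd1 hd2 r hr
        obtain ⟨s, rfl⟩ := Ideal.Quotient.mk_surjective r
        rw [← map_zsmul, Ideal.Quotient.eq_zero_iff_mem] at hr
        rw [Ideal.Quotient.eq_zero_iff_mem]
        refine sat_dvd (dvd_N hd1 (by omega)) (d := d) ?_
        rw [← natCast_zsmul]
        exact hr
      have h2 := HS.vand (j + 1 + 1) tf
        (fun k => Ideal.Quotient.mk (H.A n (j + 1)) (H.t (cn x h (j + 1) k))) (fun i => ?_) 1
      · exact Ideal.Quotient.eq_zero_iff_mem.1 h2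
      · have e := cn_sum x h (j + 1) ((i : ℕ) : ℤ)
        have e1 := congrArg (fun z => Ideal.Quotient.mk (H.A n (j + 1)) (H.t z)) e
        simp only [map_sum, map_zsmul] at e1
        rw [Ideal.Quotient.eq_zero_iff_mem.2 (H.t_pw_mem n (le_refl (j + 1)) _)] at e1
        rw [← Fin.sum_univ_eq_sum_range (fun k => (((i : ℕ) : ℤ)) ^ k •
          Ideal.Quotient.mk (H.A n (j + 1)) (H.t (cn x h (j + 1) k)))] at e1
        exact e1.symm
    have h3 := H.bot_le_A n (j + 1) (H.t_cn (six_dvd hn) x h j 0)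
    have e : H.t (cn x h (j + 1) 1) = H.t (pw x 0 * cn x h j 1) + H.t (pw x j * h) := by
      show H.t (x * cn x h j 1 + h * cn x h j 0) = _
      rw [map_add, cn_zero, mul_comm h]
      rfl
    rw [zero_add] at h3
    have e2 : (j + 2 : ℕ) • H.t (pw x j * h) = H.t (cn x h (j + 1) 1) -
        (H.t (pw x 0 * cn x h j 1) - ((j : ℤ) + 1) • H.t (pw x j * h)) := by
      rw [e, ← natCast_zsmul]
      push_cast
      rw [show (j : ℤ) + 2 = (j + 1) + 1 by ring, add_smul _ (1 : ℤ), one_smul]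
      abel
    refine sat_dvd (dvd_N (by omega) (by omega)) (d := j + 2) ?_
    show (j + 2 : ℕ) • H.t (pw x j * h) ∈ H.A n (j + 1)
    rw [e2]
    exact (H.A n (j + 1)).sub_mem h1 h3
  · rw [pw_zero hnil x hj, zero_mul, map_zero]
    exact Submodule.zero_mem _

/-- the elements whose products have small trace -/
def V (n j : ℕ) : AddSubgroup J where
  carrier := {b | ∀ h : J, H.t (b * h) ∈ H.A n j}
  zero_mem' := by
    intro h
    rw [zero_mul, map_zero]
    exact Submodule.zero_mem _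
  add_mem' := by
    intro a b ha hb h
    rw [add_mul, map_add]
    exact Submodule.add_mem _ (ha h) (hb h)
  neg_mem' := by
    intro a ha h
    rw [neg_mul, map_neg]
    exact Submodule.neg_mem _ (ha h)

theorem cube_mem {n j : ℕ} {b c : J} (hb : b ∈ H.V n j) (hc : c ∈ H.V n j) :
    H.t b ^ 3 * H.t c ∈ H.A n j := by
  have h := congrArg (fun z => H.T (z * H.f c)) (H.cubic (H.f b))
  simp only [add_mul, sub_mul, H.smul_mul, map_add, map_sub, map_smul, smul_eq_mul, zero_mul,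
    map_zero, H.one, ← H.mul, ← H.t_def] at h
  have h1 : H.t (b * (b * b) * c) ∈ H.A n j := by
    rw [mul_comm]
    exact hc _
  have h2 : H.t (b * b * c) ∈ H.A n j := by
    rw [mul_comm]
    exact hc _
  have h3 : H.t (b * c) ∈ H.A n j := hb _
  have h4 : H.t (b * b) ∈ H.A n j := hb _
  have h5 : H.t (b * (b * b)) ∈ H.A n j := hb _
  have e : H.t b ^ 3 * H.t c = 6 * H.t (b * (b * b) * c) - 6 * H.t b * H.t (b * b * c) +
      3 * (H.t b ^ 2 - H.t (b * b)) * H.t (b * c) +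
      (3 * H.t b * H.t c) * H.t (b * b) - (2 * H.t c) * H.t (b * (b * b)) := by
    linear_combination -h
  rw [e]
  exact Submodule.sub_mem _ (Submodule.add_mem _ (Submodule.add_mem _ (Submodule.sub_mem _
    (Ideal.mul_mem_left _ _ h1) (Ideal.mul_mem_left _ _ h2)) (Ideal.mul_mem_left _ _ h3))
    (Ideal.mul_mem_left _ _ h4)) (Ideal.mul_mem_left _ _ h5)

theorem four_mem {n j : ℕ} (hn : 3 ≤ n) {a b c d : J} (ha : a ∈ H.V n j) (hb : b ∈ H.V n j)
    (hc : c ∈ H.V n j) (hd : d ∈ H.V n j) : H.t a * H.t b * H.t c * H.t d ∈ H.A n j := by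
  refine sat_dvd (six_dvd hn) (d := 6) ?_
  have e : (6 : ℕ) • (H.t a * H.t b * H.t c * H.t d) =
      H.t (a + b + c) ^ 3 * H.t d - H.t (a + b) ^ 3 * H.t d - H.t (a + c) ^ 3 * H.t d -
      H.t (b + c) ^ 3 * H.t d + H.t a ^ 3 * H.t d + H.t b ^ 3 * H.t d + H.t c ^ 3 * H.t d := by
    simp only [map_add, nsmul_eq_mul]
    push_cast
    ring
  rw [e]
  refine Submodule.add_mem _ (Submodule.add_mem _ (Submodule.add_mem _ (Submodule.sub_mem _
    (Submodule.sub_mem _ (Submodule.sub_mem _ ?_ ?_) ?_) ?_) ?_) ?_) ?_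
  · exact H.cube_mem ((H.V n j).add_mem ((H.V n j).add_mem ha hb) hc) hd
  · exact H.cube_mem ((H.V n j).add_mem ha hb) hd
  · exact H.cube_mem ((H.V n j).add_mem ha hc) hd
  · exact H.cube_mem ((H.V n j).add_mem hb hc) hd
  · exact H.cube_mem ha hd
  · exact H.cube_mem hb hd
  · exact H.cube_mem hc hd

theorem pw_mem_V [IsCommJordan J] {n : ℕ} (hn : 3 ≤ n) (hnil : ∀ a : J, pw a (n - 1) = 0) (x : J)
    {j l : ℕ} (hl : j ≤ l) : pw x l ∈ H.V n (j + 1) := by
  intro h
  have h1 := H.t_mul_mem hn hnil x h l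
  refine sat_mono _ (Ideal.span_mono ?_) h1
  rintro s ⟨y, k, hk, e⟩
  exact ⟨y, k, by omega, e⟩

theorem A_four [IsCommJordan J] {n : ℕ} (hn : 3 ≤ n) (hnil : ∀ a : J, pw a (n - 1) = 0) (j : ℕ) :
    (H.A n j) ^ 4 ≤ H.A n (j + 1) := by
  refine sat_four ?_
  rintro a ⟨y1, l1, h1, rfl⟩ b ⟨y2, l2, h2, rfl⟩ c ⟨y3, l3, h3, rfl⟩ d ⟨y4, l4, h4, rfl⟩
  exact H.four_mem hn (H.pw_mem_V hn hnil y1 h1) (H.pw_mem_V hn hnil y2 h2)
    (H.pw_mem_V hn hnil y3 h3) (H.pw_mem_V hn hnil y4 h4)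

theorem A_pow [IsCommJordan J] {n : ℕ} (hn : 3 ≤ n) (hnil : ∀ a : J, pw a (n - 1) = 0) (j : ℕ) :
    (H.A n 0) ^ (4 ^ j) ≤ H.A n j := by
  induction j with
  | zero => rw [pow_zero, pow_one]
  | succ j ih =>
    rw [pow_succ, pow_mul]
    exact (Ideal.pow_right_mono ih 4).trans (H.A_four hn hnil j)

theorem A_last {n : ℕ} (hnil : ∀ a : J, pw a (n - 1) = 0) :
    H.A n (n - 1) ≤ sat (2 * n.factorial) (⊥ : Submodule F F) := by
  refine sat_mono _ ?_
  refine Ideal.span_le.2 ?_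
  rintro s ⟨y, l, hl, rfl⟩
  rw [pw_zero hnil y hl, map_zero]
  exact Submodule.zero_mem _

end Hom3

end Pool.Agent.H.MP_e16c79_al.AL
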