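import Pool.Agent.H.MP_e16c79_al.AL.Mod
import Pool.Agent.H.MP_e16c79_al.SP.RProof

/-!
# MP_e16c79_al: Jordan rings with a map to an algebra of degree three, and the joint theorem
-/

set_option autoImplicit false

namespace Pool.Agent.H.MP_e16c79_al.AL

open Finset

universe u

section

variable {J : Type u} [NonUnitalNonAssocCommRing J] {D : ℕ → AddSubgroup J}

theorem D_anti (hD0 : D 0 = ⊤)
    (hDs : ∀ i, D (i + 1) = AddSubgroup.closure {x : J | ∃ a ∈ D i, ∃ b ∈ D i, x = a * b}) (i : ℕ) :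
    D (i + 1) ≤ D i := by
  induction i with
  | zero =>
    rw [hD0]
    exact le_top
  | succ i ih =>
    rw [hDs (i + 1)]
    conv_rhs => rw [hDs i]
    refine AddSubgroup.closure_mono ?_
    rintro x ⟨a, ha, b, hb, e⟩
    exact ⟨a, ih ha, b, ih hb, e⟩

theorem D_le (hD0 : D 0 = ⊤)
    (hDs : ∀ i, D (i + 1) = AddSubgroup.closure {x : J | ∃ a ∈ D i, ∃ b ∈ D i, x = a * b}) (i j : ℕ) :
    D (i + j) ≤ D i := by
  induction j with
  | zero => exact le_refl _
  | succ j ih => exact (D_anti hD0 hDs (i + j)).trans ih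

end

namespace Hom3

variable {J : Type u} {F B : Type*} [NonUnitalNonAssocCommRing J] [CommRing F]
    [NonUnitalNonAssocCommRing B] [Module F B] (H : Hom3 J F B) {D : ℕ → AddSubgroup J}

/-- the first term of the derived series inside the filtration -/
theorem D_mem_K {n : ℕ} (hn : 3 ≤ n)
    (hnil : ∀ a : J, (fun x => a * x)^[n - 1] a = 0) (hD0 : D 0 = ⊤)
    (hDs : ∀ i, D (i + 1) = AddSubgroup.closure {x : J | ∃ a ∈ D i, ∃ b ∈ D i, x = a * b}) {x : J}
    (hx : x ∈ D (n * Nat.clog 2 (n + 2) + 1)) : H.f x ∈ H.K n 1 := by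
  have h1 := (SP.special n (by omega) hnil (H.ps n) (fun a b => H.ps_jor hn a b) D hD0 hDs).1
  have h2 : ∀ a ∈ D (n * Nat.clog 2 (n + 2)), ∀ b : J, a * b ∈ H.I n := by
    intro a ha b
    obtain ⟨k, hk⟩ := h1 a ha
    have h3 := congrArg (fun g : AddMonoid.End (J ⧸ H.I n) => g (b : J ⧸ H.I n)) hk
    have h4 : (((2 * n.factorial) ^ k • ((-2 : ℤ) • (a * b)) : J) : J ⧸ H.I n) = 0 := by
      have h5 : ((2 * n.factorial) ^ k • H.ps n a) (b : J ⧸ H.I n) = 0 := h3
      have h6 : ((2 * n.factorial) ^ k • H.ps n a) (b : J ⧸ H.I n) =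
          (2 * n.factorial) ^ k • (H.ps n a (b : J ⧸ H.I n)) := rfl
      rw [h6, ps_mk] at h5
      exact h5
    rw [QuotientAddGroup.eq_zero_iff, mem_I, map_nsmul] at h4
    have h7 : H.f ((-2 : ℤ) • (a * b)) ∈ H.K n 1 := sat_pow k h4
    have h8 : (2 : ℕ) • H.f (a * b) ∈ H.K n 1 := by
      have e : (2 : ℕ) • H.f (a * b) = - H.f ((-2 : ℤ) • (a * b)) := by
        rw [map_zsmul]
        abel
      rw [e]
      exact Submodule.neg_mem _ h7
    exact sat_dvd (Dvd.intro _ rfl) (d := 2) h8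
  rw [hDs] at hx
  have h9 : AddSubgroup.closure {x : J | ∃ a ∈ D (n * Nat.clog 2 (n + 2)),
      ∃ b ∈ D (n * Nat.clog 2 (n + 2)), x = a * b} ≤ H.I n := by
    refine (AddSubgroup.closure_le _).2 ?_
    rintro y ⟨a, ha, b, _, rfl⟩
    exact h2 a ha b
  exact h9 hx

theorem D_mem_K' {n : ℕ} (hn : 3 ≤ n)
    (hnil : ∀ a : J, (fun x => a * x)^[n - 1] a = 0) (hD0 : D 0 = ⊤)
    (hDs : ∀ i, D (i + 1) = AddSubgroup.closure {x : J | ∃ a ∈ D i, ∃ b ∈ D i, x = a * b}) (s : ℕ) :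
    ∀ x ∈ D (n * Nat.clog 2 (n + 2) + 1 + s), H.f x ∈ H.K n (2 ^ s) := by
  induction s with
  | zero =>
    intro x hx
    rw [pow_zero]
    exact H.D_mem_K hn hnil hD0 hDs hx
  | succ s ih =>
    intro x hx
    rw [← add_assoc, hDs] at hx
    have h1 : AddSubgroup.closure {x : J | ∃ a ∈ D (n * Nat.clog 2 (n + 2) + 1 + s),
        ∃ b ∈ D (n * Nat.clog 2 (n + 2) + 1 + s), x = a * b} ≤
        (H.K n (2 ^ (s + 1))).toAddSubgroup.comap H.f := by
      refine (AddSubgroup.closure_le _).2 ?_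
      rintro y ⟨a, ha, b, hb, rfl⟩
      have h2 := H.mul_mem_K (ih a ha) (ih b hb)
      show H.f (a * b) ∈ H.K n (2 ^ (s + 1))
      rw [H.mul, pow_succ, mul_two]
      exact h2
    exact h1 hx

/-- rings of degree three -/
theorem D_tor [IsCommJordan J] {n : ℕ} (hn : 3 ≤ n)
    (hnil : ∀ a : J, (fun x => a * x)^[n - 1] a = 0) (hD0 : D 0 = ⊤)
    (hDs : ∀ i, D (i + 1) = AddSubgroup.closure {x : J | ∃ a ∈ D i, ∃ b ∈ D i, x = a * b}) :
    ∀ x ∈ D (n * Nat.clog 2 (n + 2) + (2 * n - 1)),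
      ∃ k : ℕ, ((2 * n.factorial) ^ k : ℕ) • H.f x = 0 := by
  intro x hx
  have hnil' : ∀ a : J, pw a (n - 1) = 0 := by
    intro a
    rw [← pw_iter]
    exact hnil a
  have e : n * Nat.clog 2 (n + 2) + (2 * n - 1) = n * Nat.clog 2 (n + 2) + 1 + 2 * (n - 1) := by
    omega
  rw [e] at hx
  have h1 := H.D_mem_K' hn hnil hD0 hDs (2 * (n - 1)) x hx
  rw [pow_mul, show (2 : ℕ) ^ 2 = 4 from rfl] at h1
  exact H.K_last hn hnil' h1

end Hom3

/-- THE JOINT THEOREM -/
theorem joint {J : Type u} [NonUnitalNonAssocCommRing J] [IsCommJordan J] {n : ℕ} (hn : 1 ≤ n)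
    (hnil : ∀ a : J, (fun x => a * x)^[n - 1] a = 0)
    (htf : ∀ a : J, (2 * n.factorial) • a = 0 → a = 0)
    {A : Type*} [NonUnitalRing A] (φ : J →+ A)
    (hφ : ∀ x y, 2 • φ (x * y) = φ x * φ y + φ y * φ x)
    {F B : Type*} [CommRing F] [NonUnitalNonAssocCommRing B] [Module F B] (H : Hom3 J F B)
    (hker : ∀ x, φ x = 0 → H.f x = 0 → x = 0)
    (D : ℕ → AddSubgroup J) (hD0 : D 0 = ⊤)
    (hDs : ∀ i, D (i + 1) = AddSubgroup.closure {x : J | ∃ a ∈ D i, ∃ b ∈ D i, x = a * b}) :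
    D (n * Nat.clog 2 (n + 2) + (2 * n - 1)) = ⊥ := by
  have htf' : ∀ (k : ℕ) (a : J), ((2 * n.factorial) ^ k) • a = 0 → a = 0 := by
    intro k
    induction k with
    | zero =>
      intro a h
      rw [pow_zero, one_smul] at h
      exact h
    | succ k ih =>
      intro a h
      refine htf a (ih _ ?_)
      rw [← mul_smul, ← pow_succ]
      exact h
  rw [eq_bot_iff]
  intro x hx
  rw [AddSubgroup.mem_bot]
  rcases Nat.lt_or_ge n 3 with h | h
  · have h2 : ∀ a : J, a * a = 0 := by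
      intro a
      have h3 := hnil a
      rcases Nat.lt_or_ge n 2 with h4 | h4
      · have h5 : n - 1 = 0 := by omega
        rw [h5] at h3
        have h6 : a = 0 := h3
        rw [h6, zero_mul]
      · have h5 : n - 1 = 1 := by omega
        rw [h5] at h3
        exact h3
    have h3 : ∀ a b : J, a * b = 0 := by
      intro a b
      have h4 := h2 (a + b)
      rw [add_mul, mul_add, mul_add, h2 a, h2 b, zero_add, add_zero, mul_comm b a] at h4
      refine htf _ ?_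
      rw [mul_comm, mul_smul, two_smul, h4, smul_zero]
    have h4 : D (0 + 1) ≤ ⊥ := by
      rw [hDs]
      refine (AddSubgroup.closure_le _).2 ?_
      rintro y ⟨a, _, b, _, rfl⟩
      exact h3 a b
    have h5 : x ∈ D (0 + 1) := by
      have e : n * Nat.clog 2 (n + 2) + (2 * n - 1) =
          0 + 1 + (n * Nat.clog 2 (n + 2) + (2 * n - 1) - 1) := by omega
      rw [e] at hx
      exact D_le hD0 hDs (0 + 1) _ hx
    exact h4 h5
  · obtain ⟨k, hk⟩ := (SP.special n hn hnil φ hφ D hD0 hDs).1 x (D_le hD0 hDs _ _ hx)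
    obtain ⟨l, hl⟩ := H.D_tor h hnil hD0 hDs x hx
    refine htf' (k + l) x (hker _ ?_ ?_)
    · rw [map_nsmul, pow_add, mul_comm, mul_smul, hk, smul_zero]
    · rw [map_nsmul, pow_add, mul_smul, hl, smul_zero]

end Pool.Agent.H.MP_e16c79_al.AL
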