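import Pool.Agent.H.MP_e16c79_al.AL.Chain

/-!
# MP_e16c79_al, rings of degree three: the filtration by powers of the trace ideal
-/

set_option autoImplicit false

namespace Pool.Agent.H.MP_e16c79_al.AL

open Finset

namespace Hom3

variable {J F B : Type*} [NonUnitalNonAssocCommRing J] [CommRing F]
    [NonUnitalNonAssocCommRing B] [Module F B] (H : Hom3 J F B)

/-- the filtration -/
def K (n i : ℕ) : Submodule F B := sat (2 * n.factorial) ((H.A n 0 ^ i) • (⊤ : Submodule F B))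

theorem smul_mem_K (n i : ℕ) {a : F} (ha : a ∈ H.A n 0 ^ i) (b : B) : a • b ∈ H.K n i :=
  le_sat _ _ (Submodule.smul_mem_smul ha Submodule.mem_top)

theorem mul_mem_top {n i j : ℕ} {x y : B} (hx : x ∈ (H.A n 0 ^ i) • (⊤ : Submodule F B))
    (hy : y ∈ (H.A n 0 ^ j) • (⊤ : Submodule F B)) :
    x * y ∈ (H.A n 0 ^ (i + j)) • (⊤ : Submodule F B) := by
  refine Submodule.smul_induction_on hx ?_ ?_
  · intro a ha b _
    refine Submodule.smul_induction_on hy ?_ ?_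
    · intro a' ha' b' _
      rw [H.smul_mul, H.mul_smul', smul_smul]
      refine Submodule.smul_mem_smul ?_ Submodule.mem_top
      rw [pow_add]
      exact Ideal.mul_mem_mul ha ha'
    · intro u v hu hv
      rw [mul_add]
      exact Submodule.add_mem _ hu hv
  · intro u v hu hv
    rw [add_mul]
    exact Submodule.add_mem _ hu hv

theorem mul_mem_K {n i j : ℕ} {x y : B} (hx : x ∈ H.K n i) (hy : y ∈ H.K n j) :
    x * y ∈ H.K n (i + j) := by
  obtain ⟨k, hk⟩ := hx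
  obtain ⟨l, hl⟩ := hy
  refine ⟨k + l, ?_⟩
  have h := H.mul_mem_top hk hl
  have e : ((2 * n.factorial) ^ (k + l) : ℕ) • (x * y) =
      ((2 * n.factorial) ^ k : ℕ) • x * ((2 * n.factorial) ^ l : ℕ) • y := by
    rw [smul_mul_assoc, mul_smul_comm, smul_smul, ← pow_add]
  rw [e]
  exact h

theorem K_zero (n : ℕ) (x : B) : x ∈ H.K n 0 := by
  refine le_sat _ _ ?_
  rw [pow_zero, Ideal.one_eq_top, Submodule.top_smul]
  exact Submodule.mem_top

theorem mul_mem_K_one {n : ℕ} {x : B} (hx : x ∈ H.K n 1) (y : B) : x * y ∈ H.K n 1 := by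
  have h := H.mul_mem_K hx (H.K_zero n y)
  rw [Nat.add_zero] at h
  exact h

theorem K_last [IsCommJordan J] {n : ℕ} (hn : 3 ≤ n) (hnil : ∀ a : J, pw a (n - 1) = 0) {x : B}
    (hx : x ∈ H.K n (4 ^ (n - 1))) : ∃ k : ℕ, ((2 * n.factorial) ^ k : ℕ) • x = 0 := by
  have h1 : H.A n 0 ^ (4 ^ (n - 1)) ≤ sat (2 * n.factorial) (⊥ : Submodule F F) :=
    (H.A_pow hn hnil (n - 1)).trans (H.A_last hnil)
  have h2 : (H.A n 0 ^ (4 ^ (n - 1))) • (⊤ : Submodule F B) ≤
      sat (2 * n.factorial) (⊥ : Submodule F B) := by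
    refine Submodule.smul_le.2 ?_
    intro a ha b _
    obtain ⟨k, hk⟩ := h1 ha
    refine ⟨k, ?_⟩
    rw [Submodule.mem_bot] at hk ⊢
    rw [← smul_assoc, hk, zero_smul]
  have h3 : x ∈ sat (2 * n.factorial) (⊥ : Submodule F B) := sat_idem (sat_mono _ h2 hx)
  obtain ⟨k, hk⟩ := h3
  exact ⟨k, by rwa [Submodule.mem_bot] at hk⟩

theorem t_mem (n : ℕ) (b : J) : H.t b ∈ H.A n 0 ^ 1 := by
  rw [pow_one]
  exact H.t_pw_mem n (le_refl 0) b

theorem cube_mem_K {n : ℕ} (hn : 3 ≤ n) (b : J) : H.f (b * (b * b)) ∈ H.K n 1 := by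
  refine Deg3.six_smul_mem (six_dvd hn) ?_
  have h := H.cubic (H.f b)
  simp only [← H.mul, ← H.t_def] at h
  have e : (6 : F) • H.f (b * (b * b)) = (6 * H.t b) • H.f (b * b) -
      (3 * (H.t b ^ 2 - H.t (b * b))) • H.f b +
      (H.t b ^ 3 - 3 * H.t b * H.t (b * b) + 2 * H.t (b * (b * b))) • H.e := by
    rw [← sub_eq_zero, ← h]
    abel
  rw [e]
  have h1 := H.t_mem n b
  have h2 := H.t_mem n (b * b)
  have h3 := H.t_mem n (b * (b * b))
  refine Submodule.add_mem _ (Submodule.sub_mem _ ?_ ?_) ?_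
  · exact H.smul_mem_K n 1 (Ideal.mul_mem_left _ _ h1) _
  · refine H.smul_mem_K n 1 (Ideal.mul_mem_left _ _ (Ideal.sub_mem _ ?_ h2)) _
    rw [pow_two]
    exact Ideal.mul_mem_left _ _ h1
  · refine H.smul_mem_K n 1 (Ideal.add_mem _ (Ideal.sub_mem _ ?_ ?_) ?_) _
    · rw [pow_succ (H.t b) 2]
      exact Ideal.mul_mem_left _ _ h1
    · exact Ideal.mul_mem_left _ _ h2
    · exact Ideal.mul_mem_left _ _ h3

/-- the linearised cube -/
theorem tri_mem_K {n : ℕ} (hn : 3 ≤ n) (a b c : J) :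
    H.f (a * (b * c) + b * (a * c) + a * b * c) ∈ H.K n 1 := by
  refine sat_dvd (d := 2) ((by norm_num : 2 ∣ 6).trans (six_dvd hn)) ?_
  have key : (2 : ℕ) • (a * (b * c) + b * (a * c) + a * b * c) =
      (a + b + c) * ((a + b + c) * (a + b + c)) - (a + b) * ((a + b) * (a + b)) -
      (a + c) * ((a + c) * (a + c)) - (b + c) * ((b + c) * (b + c)) + a * (a * a) + b * (b * b) +
      c * (c * c) := by
    have e1 : b * a = a * b := mul_comm b a
    have e2 : c * a = a * c := mul_comm c a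
    have e3 : c * b = b * c := mul_comm c b
    have e4 : a * b * c = c * (a * b) := mul_comm _ _
    rw [e4]
    simp only [mul_add, add_mul, e1, e2, e3]
    abel
  rw [← map_nsmul, key]
  simp only [map_add, map_sub]
  refine Submodule.add_mem _ (Submodule.add_mem _ (Submodule.add_mem _ (Submodule.sub_mem _
    (Submodule.sub_mem _ (Submodule.sub_mem _ ?_ ?_) ?_) ?_) ?_) ?_) ?_
  · exact H.cube_mem_K hn (a + b + c)
  · exact H.cube_mem_K hn (a + b)
  · exact H.cube_mem_K hn (a + c)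
  · exact H.cube_mem_K hn (b + c)
  · exact H.cube_mem_K hn a
  · exact H.cube_mem_K hn b
  · exact H.cube_mem_K hn c

/-- the ideal of `J` -/
def I (n : ℕ) : AddSubgroup J := (H.K n 1).toAddSubgroup.comap H.f

theorem mem_I {n : ℕ} {x : J} : x ∈ H.I n ↔ H.f x ∈ H.K n 1 := Iff.rfl

theorem mul_mem_I {n : ℕ} {x : J} (hx : x ∈ H.I n) (y : J) : x * y ∈ H.I n := by
  rw [mem_I, H.mul]
  exact H.mul_mem_K_one hx _

/-- the multiplications of the quotient -/
def Lq (n : ℕ) : J →+ AddMonoid.End (J ⧸ H.I n) where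
  toFun := fun a => QuotientAddGroup.map (H.I n) (H.I n) (AddMonoidHom.mulLeft a) (by
    intro x hx
    show a * x ∈ H.I n
    rw [mul_comm]
    exact H.mul_mem_I hx a)
  map_zero' := by
    refine AddMonoidHom.ext fun q => ?_
    obtain ⟨x, rfl⟩ := QuotientAddGroup.mk_surjective q
    show ((0 * x : J) : J ⧸ H.I n) = 0
    rw [zero_mul]
    rfl
  map_add' := by
    intro a b
    refine AddMonoidHom.ext fun q => ?_
    obtain ⟨x, rfl⟩ := QuotientAddGroup.mk_surjective q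
    show (((a + b) * x : J) : J ⧸ H.I n) = ((a * x : J) : J ⧸ H.I n) + ((b * x : J) : J ⧸ H.I n)
    rw [add_mul]
    rfl

theorem Lq_mk (n : ℕ) (a x : J) :
    H.Lq n a (x : J ⧸ H.I n) = ((a * x : J) : J ⧸ H.I n) := rfl

/-- the specialisation -/
def ps (n : ℕ) : J →+ AddMonoid.End (J ⧸ H.I n) := (-2 : ℤ) • H.Lq n

theorem ps_mk (n : ℕ) (a x : J) :
    H.ps n a (x : J ⧸ H.I n) = (((-2 : ℤ) • (a * x) : J) : J ⧸ H.I n) := by
  show (-2 : ℤ) • H.Lq n a (x : J ⧸ H.I n) = _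
  rw [Lq_mk]
  rfl

theorem ps_jor {n : ℕ} (hn : 3 ≤ n) (a b : J) :
    2 • H.ps n (a * b) = H.ps n a * H.ps n b + H.ps n b * H.ps n a := by
  refine AddMonoidHom.ext fun q => ?_
  obtain ⟨x, rfl⟩ := QuotientAddGroup.mk_surjective q
  show 2 • H.ps n (a * b) (x : J ⧸ H.I n) =
    H.ps n a (H.ps n b (x : J ⧸ H.I n)) + H.ps n b (H.ps n a (x : J ⧸ H.I n))
  rw [ps_mk, ps_mk, ps_mk, ps_mk, ps_mk]
  have h := H.tri_mem_K hn a b x
  have h2 : (4 : ℤ) • (a * (b * x) + b * (a * x) + a * b * x) ∈ H.I n :=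
    (H.I n).zsmul_mem h 4
  rw [← sub_eq_zero]
  have e : ((2 • ((-2 : ℤ) • (a * b * x)) - ((-2 : ℤ) • (a * ((-2 : ℤ) • (b * x))) +
      (-2 : ℤ) • (b * ((-2 : ℤ) • (a * x)))) : J) : J ⧸ H.I n) = 0 := by
    rw [QuotientAddGroup.eq_zero_iff]
    have e2 : 2 • ((-2 : ℤ) • (a * b * x)) - ((-2 : ℤ) • (a * ((-2 : ℤ) • (b * x))) +
      (-2 : ℤ) • (b * ((-2 : ℤ) • (a * x)))) =
        -((4 : ℤ) • (a * (b * x) + b * (a * x) + a * b * x)) := by
      rw [mul_smul_comm, mul_smul_comm]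
      abel
    rw [e2]
    exact (H.I n).neg_mem h2
  exact e

end Hom3

end Pool.Agent.H.MP_e16c79_al.AL
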