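import Mathlib

/-!
# MP_e16c79_al, rings of degree three: saturated submodules
-/

set_option autoImplicit false

namespace Pool.Agent.H.MP_e16c79_al.AL

section sat

variable {F : Type*} [CommRing F] {M : Type*} [AddCommGroup M] [Module F M]

/-- the elements which a power of `N` moves into `P` -/
def sat (N : ℕ) (P : Submodule F M) : Submodule F M where
  carrier := {x | ∃ k : ℕ, (N ^ k : ℕ) • x ∈ P}
  zero_mem' := ⟨0, by rw [smul_zero]; exact P.zero_mem⟩
  add_mem' := by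
    rintro x y ⟨k, hk⟩ ⟨l, hl⟩
    refine ⟨k + l, ?_⟩
    rw [smul_add]
    refine P.add_mem ?_ ?_
    · rw [pow_add, mul_comm, mul_smul]
      exact P.toAddSubgroup.nsmul_mem hk _
    · rw [pow_add, mul_smul]
      exact P.toAddSubgroup.nsmul_mem hl _
  smul_mem' := by
    rintro c x ⟨k, hk⟩
    refine ⟨k, ?_⟩
    rw [smul_comm]
    exact P.smul_mem c hk

theorem mem_sat {N : ℕ} {P : Submodule F M} {x : M} :
    x ∈ sat N P ↔ ∃ k : ℕ, (N ^ k : ℕ) • x ∈ P := Iff.rfl

theorem le_sat (N : ℕ) (P : Submodule F M) : P ≤ sat N P := by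
  intro x hx
  refine ⟨0, ?_⟩
  rw [pow_zero, one_smul]
  exact hx

theorem sat_of {N : ℕ} {P : Submodule F M} {x : M} (h : N • x ∈ sat N P) : x ∈ sat N P := by
  obtain ⟨k, hk⟩ := h
  refine ⟨k + 1, ?_⟩
  rw [pow_succ, mul_smul]
  exact hk

theorem sat_dvd {N d : ℕ} (hd : d ∣ N) {P : Submodule F M} {x : M} (h : d • x ∈ sat N P) :
    x ∈ sat N P := by
  obtain ⟨c, rfl⟩ := hd
  refine sat_of ?_
  have e : (d * c) • x = c • (d • x) := by rw [← mul_smul, mul_comm]
  rw [e]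
  exact (sat _ P).toAddSubgroup.nsmul_mem h _

theorem sat_pow {N : ℕ} {P : Submodule F M} {x : M} (k : ℕ) (h : (N ^ k : ℕ) • x ∈ sat N P) :
    x ∈ sat N P := by
  induction k generalizing x with
  | zero =>
    rw [pow_zero, one_smul] at h
    exact h
  | succ k ih =>
    refine sat_of (ih ?_)
    rw [← mul_smul, ← pow_succ]
    exact h

theorem sat_mono (N : ℕ) {P Q : Submodule F M} (h : P ≤ Q) : sat N P ≤ sat N Q := by
  rintro x ⟨k, hk⟩
  exact ⟨k, h hk⟩

theorem sat_idem {N : ℕ} {P : Submodule F M} {x : M} (h : x ∈ sat N (sat N P)) : x ∈ sat N P := by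
  obtain ⟨k, hk⟩ := h
  exact sat_pow k hk

end sat

section four

variable {F : Type*} [CommRing F]

theorem pow_four_le {I K : Ideal F} (h : ∀ a ∈ I, ∀ b ∈ I, ∀ c ∈ I, ∀ d ∈ I, a * b * c * d ∈ K) :
    I ^ 4 ≤ K := by
  have h2 : ∀ r ∈ I * I, ∀ c ∈ I, ∀ d ∈ I, r * c * d ∈ K := by
    intro r hr
    refine Submodule.mul_induction_on hr (fun a ha b hb c hc d hd => h a ha b hb c hc d hd) ?_
    intro x y hx hy c hc d hd
    rw [add_mul, add_mul]
    exact K.add_mem (hx c hc d hd) (hy c hc d hd)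
  have h3 : ∀ r ∈ I * I * I, ∀ d ∈ I, r * d ∈ K := by
    intro r hr
    refine Submodule.mul_induction_on hr (fun a ha b hb d hd => h2 a ha b hb d hd) ?_
    intro x y hx hy d hd
    rw [add_mul]
    exact K.add_mem (hx d hd) (hy d hd)
  have h4 : I ^ 4 = I * I * I * I := by ring
  rw [h4]
  exact Ideal.mul_le.2 fun r hr s hs => h3 r hr s hs

theorem span_four {S : Set F} {K : Ideal F}
    (h : ∀ a ∈ S, ∀ b ∈ S, ∀ c ∈ S, ∀ d ∈ S, a * b * c * d ∈ K) :
    ∀ a ∈ Ideal.span S, ∀ b ∈ Ideal.span S, ∀ c ∈ Ideal.span S, ∀ d ∈ Ideal.span S,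
      a * b * c * d ∈ K := by
  have key : ∀ (T : Set F) (P : F → F), (∀ x y, P (x + y) = P x + P y) → (∀ r x, P (r * x) = r * P x) →
      (∀ a ∈ T, P a ∈ K) → ∀ a ∈ Ideal.span T, P a ∈ K := by
    intro T P hadd hmul hT a ha
    refine Submodule.span_induction (p := fun a _ => P a ∈ K) hT ?_ ?_ ?_ ha
    · have : P 0 = 0 := by
        have := hmul 0 0
        rw [zero_mul, zero_mul] at this
        exact this
      rw [this]
      exact K.zero_mem
    · intro x y _ _ hx hy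
      rw [hadd]
      exact K.add_mem hx hy
    · intro r x _ hx
      rw [smul_eq_mul, hmul]
      exact K.mul_mem_left r hx
  have h1 : ∀ a ∈ Ideal.span S, ∀ b ∈ S, ∀ c ∈ S, ∀ d ∈ S, a * b * c * d ∈ K := by
    intro a ha b hb c hc d hd
    exact key S (fun a => a * b * c * d) (fun x y => by ring) (fun r x => by ring)
      (fun a ha => h a ha b hb c hc d hd) a ha
  have h2 : ∀ a ∈ Ideal.span S, ∀ b ∈ Ideal.span S, ∀ c ∈ S, ∀ d ∈ S, a * b * c * d ∈ K := by
    intro a ha b hb c hc d hd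
    exact key S (fun b => a * b * c * d) (fun x y => by ring) (fun r x => by ring)
      (fun b hb => h1 a ha b hb c hc d hd) b hb
  have h3 : ∀ a ∈ Ideal.span S, ∀ b ∈ Ideal.span S, ∀ c ∈ Ideal.span S, ∀ d ∈ S,
      a * b * c * d ∈ K := by
    intro a ha b hb c hc d hd
    exact key S (fun c => a * b * c * d) (fun x y => by ring) (fun r x => by ring)
      (fun c hc => h2 a ha b hb c hc d hd) c hc
  intro a ha b hb c hc d hd
  exact key S (fun d => a * b * c * d) (fun x y => by ring) (fun r x => by ring)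
    (fun d hd => h3 a ha b hb c hc d hd) d hd

theorem sat_four {N : ℕ} {S : Set F} {P : Ideal F}
    (h : ∀ a ∈ S, ∀ b ∈ S, ∀ c ∈ S, ∀ d ∈ S, a * b * c * d ∈ sat N P) :
    (sat N (Ideal.span S)) ^ 4 ≤ sat N P := by
  refine pow_four_le ?_
  rintro a ⟨i, hi⟩ b ⟨j, hj⟩ c ⟨k, hk⟩ d ⟨l, hl⟩
  have h1 := span_four h _ hi _ hj _ hk _ hl
  refine sat_pow (i + j + k + l) ?_
  have e : (N ^ (i + j + k + l) : ℕ) • (a * b * c * d) =
      (N ^ i : ℕ) • a * (N ^ j : ℕ) • b * (N ^ k : ℕ) • c * (N ^ l : ℕ) • d := by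
    simp only [nsmul_eq_mul, pow_add]
    push_cast
    ring
  rw [e]
  exact h1

end four

end Pool.Agent.H.MP_e16c79_al.AL
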