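import Pool.Agent.H.MP_e16c79_al.AL.Sat
import Pool.Agent.H.MP_e16c79_al.HS.Pol

/-!
# MP_e16c79_al, rings of degree three: traces of powers
-/

set_option autoImplicit false

namespace Pool.Agent.H.MP_e16c79_al.AL

open Finset

/-- left powers, `pw a k = a ^ (k + 1)` -/
def pw {J : Type*} [Mul J] (a : J) : ℕ → J
  | 0 => a
  | k + 1 => a * pw a k

theorem pw_iter {J : Type*} [Mul J] (a : J) (k : ℕ) : (fun x => a * x)^[k] a = pw a k := by
  induction k with
  | zero => rfl
  | succ k ih =>
    rw [Function.iterate_succ_apply', ih]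
    rfl

/-- algebras of degree three with a trace -/
structure Deg3 (F B : Type*) [CommRing F] [NonUnitalNonAssocCommRing B] [Module F B] where
  e : B
  T : B →ₗ[F] F
  smul_mul : ∀ (c : F) (a b : B), (c • a) * b = c • (a * b)
  one : ∀ b, e * b = b
  assoc : ∀ a b c, T (a * b * c) = T (a * (b * c))
  cubic : ∀ b, (6 : F) • (b * (b * b)) - (6 * T b) • (b * b) + (3 * (T b ^ 2 - T (b * b))) • b
      - (T b ^ 3 - 3 * T b * T (b * b) + 2 * T (b * (b * b))) • e = 0

namespace Deg3

variable {F B : Type*} [CommRing F] [NonUnitalNonAssocCommRing B] [Module F B] (D : Deg3 F B)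

include D in
theorem mul_smul' (c : F) (a b : B) : a * (c • b) = c • (a * b) := by
  rw [mul_comm, D.smul_mul, mul_comm]

theorem mul_one' (b : B) : b * D.e = b := by
  rw [mul_comm, D.one]

/-- left powers of an element of `B`, `px x k = x ^ k` -/
def px (x : B) : ℕ → B
  | 0 => D.e
  | k + 1 => x * px x k

theorem px_zero (x : B) : D.px x 0 = D.e := rfl

theorem px_succ (x : B) (k : ℕ) : D.px x (k + 1) = x * D.px x k := rfl

theorem px_one (x : B) : D.px x 1 = x := by
  rw [px_succ, px_zero, D.mul_one']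

theorem px_two (x : B) : D.px x 2 = x * x := by
  rw [px_succ, px_one]

include D in
theorem rec_step (x : B) {a b c : F} {u v w z : B} (h : (6 : F) • u = a • v - b • w + c • z) :
    (6 : F) • (x * u) = a • (x * v) - b • (x * w) + c • (x * z) := by
  rw [← D.mul_smul', h, mul_add, mul_sub, D.mul_smul', D.mul_smul', D.mul_smul']

theorem px_rec (x : B) (k : ℕ) : (6 : F) • D.px x (k + 3) =
    (6 * D.T x) • D.px x (k + 2) - (3 * (D.T x ^ 2 - D.T (x * x))) • D.px x (k + 1)
      + (D.T x ^ 3 - 3 * D.T x * D.T (x * x) + 2 * D.T (x * (x * x))) • D.px x k := by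
  induction k with
  | zero =>
    have h := D.cubic x
    rw [show 0 + 3 = 2 + 1 from rfl, D.px_succ x 2, D.px_two, show 0 + 1 = 1 from rfl, D.px_one,
      D.px_zero]
    rw [← sub_eq_zero]
    rw [← h]
    abel
  | succ k ih => exact D.rec_step x ih

/-- the torsion -/
abbrev tor (N : ℕ) : Submodule F B := sat N ⊥

theorem sat_bot_mul {N : ℕ} {z : B} (hz : z ∈ (sat N ⊥ : Submodule F B)) (b : B) :
    z * b ∈ (sat N ⊥ : Submodule F B) := by
  obtain ⟨k, hk⟩ := hz
  refine ⟨k, ?_⟩
  rw [Submodule.mem_bot] at hk ⊢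
  rw [← smul_mul_assoc, hk, zero_mul]

theorem sat_bot_T {N : ℕ} {z : B} (hz : z ∈ (sat N ⊥ : Submodule F B)) :
    D.T z ∈ (sat N ⊥ : Submodule F F) := by
  obtain ⟨k, hk⟩ := hz
  refine ⟨k, ?_⟩
  rw [Submodule.mem_bot] at hk ⊢
  rw [← map_nsmul, hk, map_zero]

theorem six_smul_mem {N : ℕ} (hN : 6 ∣ N) {M : Type*} [AddCommGroup M] [Module F M]
    {P : Submodule F M} {z : M} (h : (6 : F) • z ∈ sat N P) : z ∈ sat N P := by
  refine sat_dvd hN ?_
  have e : (6 : ℕ) • z = (6 : F) • z := by
    rw [← Nat.cast_smul_eq_nsmul F 6 z]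
    norm_num
  rw [e]
  exact h

theorem px_sq_mul {N : ℕ} (hN : 6 ∣ N) {x : B} (hx : x * x * (x * x) = x * (x * (x * x))) (k : ℕ) :
    x * x * D.px x k - D.px x (k + 2) ∈ (sat N ⊥ : Submodule F B) := by
  induction k using Nat.strong_induction_on with
  | _ k ih =>
    match k, ih with
    | 0, _ =>
      rw [D.px_zero, D.mul_one', show 0 + 2 = 2 from rfl, D.px_two, sub_self]
      exact Submodule.zero_mem _
    | 1, _ =>
      rw [D.px_one, show 1 + 2 = 2 + 1 from rfl, D.px_succ, D.px_two, mul_comm (x * x) x, sub_self]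
      exact Submodule.zero_mem _
    | 2, _ =>
      rw [D.px_two, show 2 + 2 = 2 + 1 + 1 from rfl, D.px_succ, D.px_succ, D.px_two, hx, sub_self]
      exact Submodule.zero_mem _
    | k + 3, ih =>
      refine six_smul_mem hN ?_
      have e : (6 : F) • (x * x * D.px x (k + 3) - D.px x (k + 3 + 2)) =
          (6 * D.T x) • (x * x * D.px x (k + 2) - D.px x (k + 2 + 2))
          - (3 * (D.T x ^ 2 - D.T (x * x))) • (x * x * D.px x (k + 1) - D.px x (k + 1 + 2))
          + (D.T x ^ 3 - 3 * D.T x * D.T (x * x) + 2 * D.T (x * (x * x))) •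
            (x * x * D.px x k - D.px x (k + 2)) := by
        rw [smul_sub, ← D.mul_smul', D.px_rec x k, show k + 3 + 2 = (k + 2) + 3 from rfl,
          D.px_rec x (k + 2)]
        simp only [mul_add, mul_sub, D.mul_smul', smul_sub]
        abel
      rw [e]
      exact Submodule.add_mem _ (Submodule.sub_mem _
        (Submodule.smul_mem _ _ (ih (k + 2) (by omega)))
        (Submodule.smul_mem _ _ (ih (k + 1) (by omega))))
        (Submodule.smul_mem _ _ (ih k (by omega)))

theorem px_mul {N : ℕ} (hN : 6 ∣ N) {x : B} (hx : x * x * (x * x) = x * (x * (x * x))) (j k : ℕ) :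
    D.px x j * D.px x k - D.px x (j + k) ∈ (sat N ⊥ : Submodule F B) := by
  induction j using Nat.strong_induction_on with
  | _ j ih =>
    match j, ih with
    | 0, _ =>
      rw [D.px_zero, D.one, zero_add, sub_self]
      exact Submodule.zero_mem _
    | 1, _ =>
      rw [D.px_one, add_comm 1 k, D.px_succ, sub_self]
      exact Submodule.zero_mem _
    | 2, _ =>
      rw [D.px_two, add_comm 2 k]
      exact D.px_sq_mul hN hx k
    | j + 3, ih =>
      refine six_smul_mem hN ?_
      have e : (6 : F) • (D.px x (j + 3) * D.px x k - D.px x (j + 3 + k)) =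
          (6 * D.T x) • (D.px x (j + 2) * D.px x k - D.px x (j + 2 + k))
          - (3 * (D.T x ^ 2 - D.T (x * x))) • (D.px x (j + 1) * D.px x k - D.px x (j + 1 + k))
          + (D.T x ^ 3 - 3 * D.T x * D.T (x * x) + 2 * D.T (x * (x * x))) •
            (D.px x j * D.px x k - D.px x (j + k)) := by
        rw [smul_sub, ← D.smul_mul, D.px_rec x j, show j + 3 + k = (j + k) + 3 by omega,
          D.px_rec x (j + k), show j + 2 + k = j + k + 2 by omega,
          show j + 1 + k = j + k + 1 by omega]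
        simp only [add_mul, sub_mul, D.smul_mul, smul_sub]
        abel
      rw [e]
      exact Submodule.add_mem _ (Submodule.sub_mem _
        (Submodule.smul_mem _ _ (ih (j + 2) (by omega)))
        (Submodule.smul_mem _ _ (ih (j + 1) (by omega))))
        (Submodule.smul_mem _ _ (ih j (by omega)))

end Deg3

/-- a Jordan ring with a map to an algebra of degree three -/
structure Hom3 (J F B : Type*) [NonUnitalNonAssocCommRing J] [CommRing F]
    [NonUnitalNonAssocCommRing B] [Module F B] extends Deg3 F B where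
  f : J →+ B
  mul : ∀ a b, f (a * b) = f a * f b

namespace Hom3

variable {J F B : Type*} [NonUnitalNonAssocCommRing J] [CommRing F]
    [NonUnitalNonAssocCommRing B] [Module F B] (H : Hom3 J F B)

/-- the trace on `J` -/
def t : J →+ F := (H.T : B →+ F).comp H.f

theorem t_def (a : J) : H.t a = H.T (H.f a) := rfl

theorem t_assoc (a b c : J) : H.t (a * b * c) = H.t (a * (b * c)) := by
  rw [t_def, t_def, H.mul, H.mul, H.mul, H.mul, H.assoc]

theorem f_pw (a : J) (k : ℕ) : H.f (pw a k) = H.px (H.f a) (k + 1) := by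
  induction k with
  | zero =>
    show H.f a = _
    rw [show 0 + 1 = 1 from rfl, H.px_one]
  | succ k ih =>
    show H.f (a * pw a k) = _
    rw [H.mul, ih]
    rfl

theorem pw_mul [IsCommJordan J] {N : ℕ} (hN : 6 ∣ N) (x : J) (j k : ℕ) :
    H.f (pw x j * pw x k - pw x (j + k + 1)) ∈ (sat N ⊥ : Submodule F B) := by
  have hx : H.f x * H.f x * (H.f x * H.f x) = H.f x * (H.f x * (H.f x * H.f x)) := by
    rw [← H.mul, ← H.mul, IsCommJordan.lmul_comm_rmul_rmul x x, H.mul, H.mul, H.mul]
  have h := H.px_mul hN hx (j + 1) (k + 1)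
  rw [map_sub, H.mul, f_pw, f_pw, f_pw]
  rw [show j + 1 + (k + 1) = j + k + 1 + 1 by omega] at h
  exact h

theorem t_pa [IsCommJordan J] {N : ℕ} (hN : 6 ∣ N) (x y : J) (j k : ℕ) :
    H.t (pw x j * pw x k * y) - H.t (pw x (j + k + 1) * y) ∈ (sat N ⊥ : Submodule F F) := by
  rw [← map_sub, ← sub_mul, t_def, H.mul]
  exact H.sat_bot_T (Deg3.sat_bot_mul (H.pw_mul hN x j k) _)

/-- coefficients of `(x + t h) ^ (m + 1)` -/
def cn (x h : J) : ℕ → ℕ → J
  | 0, 0 => x
  | 0, 1 => h
  | 0, _ + 2 => 0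
  | m + 1, 0 => x * cn x h m 0
  | m + 1, k + 1 => x * cn x h m (k + 1) + h * cn x h m k

theorem cn_zero (x h : J) (m : ℕ) : cn x h m 0 = pw x m := by
  induction m with
  | zero => rfl
  | succ m ih =>
    show x * cn x h m 0 = x * pw x m
    rw [ih]

theorem cn_big (x h : J) (m k : ℕ) (hk : m + 1 < k) : cn x h m k = 0 := by
  induction m generalizing k with
  | zero =>
    obtain ⟨l, rfl⟩ : ∃ l, k = l + 2 := ⟨k - 2, by omega⟩
    rfl
  | succ m ih =>
    obtain ⟨l, rfl⟩ : ∃ l, k = l + 1 := ⟨k - 1, by omega⟩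
    show x * cn x h m (l + 1) + h * cn x h m l = 0
    rw [ih _ (by omega), ih _ (by omega), mul_zero, mul_zero, add_zero]

theorem cn_sum (x h : J) (m : ℕ) (i : ℤ) :
    pw (x + i • h) m = ∑ k ∈ range (m + 2), i ^ k • cn x h m k := by
  induction m with
  | zero =>
    rw [sum_range_succ, sum_range_succ, sum_range_zero, zero_add, pow_zero, one_smul, pow_one]
    rfl
  | succ m ih =>
    show (x + i • h) * pw (x + i • h) m = _
    rw [ih, sum_range_succ' _ (m + 2)]
    have e1 : ∑ k ∈ range (m + 2), i ^ (k + 1) • cn x h (m + 1) (k + 1) =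
        ∑ k ∈ range (m + 2), i ^ (k + 1) • (x * cn x h m (k + 1)) +
        ∑ k ∈ range (m + 2), i ^ (k + 1) • (h * cn x h m k) := by
      rw [← sum_add_distrib]
      refine sum_congr rfl fun k _ => ?_
      rw [← smul_add]
      rfl
    have e2 : ∑ k ∈ range (m + 2), i ^ (k + 1) • (x * cn x h m (k + 1)) +
        i ^ 0 • (x * cn x h m 0) = x * ∑ k ∈ range (m + 2), i ^ k • cn x h m k := by
      rw [← sum_range_succ' (fun k => i ^ k • (x * cn x h m k)) (m + 2), sum_range_succ,
        cn_big x h m (m + 2) (by omega), mul_zero, smul_zero, add_zero, mul_sum]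
      refine sum_congr rfl fun k _ => ?_
      rw [mul_smul_comm]
    have e3 : ∑ k ∈ range (m + 2), i ^ (k + 1) • (h * cn x h m k) =
        (i • h) * ∑ k ∈ range (m + 2), i ^ k • cn x h m k := by
      rw [mul_sum]
      refine sum_congr rfl fun k _ => ?_
      rw [mul_smul_comm, smul_mul_assoc, smul_smul, pow_succ]
    rw [e1, e3]
    show _ = _ + _ + i ^ 0 • (x * cn x h m 0)
    rw [add_right_comm, e2, add_mul]

theorem t_cn [IsCommJordan J] {N : ℕ} (hN : 6 ∣ N) (x h : J) (m j : ℕ) :
    H.t (pw x j * cn x h m 1) - ((m : ℤ) + 1) • H.t (pw x (j + m) * h) ∈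
      (sat N ⊥ : Submodule F F) := by
  induction m generalizing j with
  | zero =>
    show H.t (pw x j * h) - (((0 : ℕ) : ℤ) + 1) • H.t (pw x (j + 0) * h) ∈ _
    rw [Nat.cast_zero, zero_add, one_smul, add_zero, sub_self]
    exact Submodule.zero_mem _
  | succ m ih =>
    have e : cn x h (m + 1) 1 = x * cn x h m 1 + h * cn x h m 0 := rfl
    have h1 := ih (j + 1)
    have h2 := H.t_pa hN x h j m
    have e1 : H.t (pw x j * (x * cn x h m 1)) = H.t (pw x (j + 1) * cn x h m 1) := by
      rw [← H.t_assoc]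
      show H.t (pw x j * x * cn x h m 1) = H.t (x * pw x j * cn x h m 1)
      rw [mul_comm (pw x j) x]
    have e2 : H.t (pw x j * (h * cn x h m 0)) = H.t (pw x j * pw x m * h) := by
      rw [cn_zero, mul_comm h, H.t_assoc]
    rw [e, mul_add, map_add, e1, e2]
    have e3 : H.t (pw x (j + 1) * cn x h m 1) + H.t (pw x j * pw x m * h) -
        (((m + 1 : ℕ) : ℤ) + 1) • H.t (pw x (j + (m + 1)) * h) =
        (H.t (pw x (j + 1) * cn x h m 1) - ((m : ℤ) + 1) • H.t (pw x (j + 1 + m) * h)) +
        (H.t (pw x j * pw x m * h) - H.t (pw x (j + m + 1) * h)) := by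
      rw [show j + 1 + m = j + m + 1 by omega, show j + (m + 1) = j + m + 1 by omega]
      push_cast
      rw [add_smul _ (1 : ℤ), one_smul]
      abel
    rw [e3]
    exact Submodule.add_mem _ h1 h2

end Hom3

end Pool.Agent.H.MP_e16c79_al.AL
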